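import Pool.Agent.MP_6b3410_lc.H75.Spec2
import Pool.Agent.MP_6b3410_lc.H48.Gadget4

/-!
Systems of parity constraints with hidden variables as projections of Hamiltonicity on linearly
many vertices, and the cubic form on a sparse code as an instance.
-/

namespace Pool.Agent.MP_6b3410_lc.H50

open Classical Pool.Agent.MP_6b3410_lc.H19 Pool.Agent.MP_6b3410_lc.H75

/-- a bit as an element of the field with two elements -/
def bz (b : Bool) : ZMod 2 := if b = true then 1 else 0

lemma bz_decide (s : ZMod 2) : bz (decide (s = 1)) = s := by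
  revert s; decide

lemma run_iff {d : ℕ} (a : Fin d → ZMod 2) (β : ZMod 2) :
    (∃ s : Fin (d + 1) → Bool, (∀ m : Fin d, bz (s m.succ) = bz (s m.castSucc) + a m) ∧
      bz (s 0) = 0 ∧ bz (s (Fin.last d)) = β) ↔ ∑ m, a m = β := by
  have key : ∀ s : Fin (d + 1) → ZMod 2, (∀ m : Fin d, s m.succ = s m.castSucc + a m) →
      s (Fin.last d) = s 0 + ∑ m, a m := by
    intro s hs
    have h1 := Fin.sum_univ_succ s
    have h2 := Fin.sum_univ_castSucc s
    simp only [hs, Finset.sum_add_distrib] at h1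
    linear_combination h1 - h2
  constructor
  · rintro ⟨s, h1, h2, h3⟩
    have := key (fun m => bz (s m)) h1
    simp only [h2, h3, zero_add] at this
    exact this.symm
  · rintro rfl
    refine ⟨fun m => decide (Fin.partialSum a m = 1), fun m => ?_, ?_, ?_⟩
    · simp only [bz_decide, Fin.partialSum_succ]
    · simp only [bz_decide, Fin.partialSum_zero]
    · have := key (Fin.partialSum a) (Fin.partialSum_succ a)
      simpa only [bz_decide, Fin.partialSum_zero, zero_add] using this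

/-- A system of parity constraints on local terms of width three, with hidden variables, is a
projection of Hamiltonicity. -/
theorem par_proj {n N : ℕ} {Y ι O : Type} [Fintype Y] [Fintype ι] [Fintype O] (hn : 1 ≤ n)
    (grp : O → ι) (sc : O → Fin 3 → Fin n ⊕ Y) (g : O → (Fin 3 → Bool) → ZMod 2) (β : ι → ZMod 2)
    (hN : 3 * (6 * (n + Fintype.card Y) + 518 * (Fintype.card O + Fintype.card ι) + 4) ≤ N) :
    ∃ pr : Edge N → (Fin n × Bool) ⊕ Bool,
      (∀ i, (Finset.univ.filter fun e => ∃ σ, pr e = Sum.inl (i, σ)).card ≤ 4) ∧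
      ∀ z, Ham (app pr z) ↔ ∃ y : Y → Bool, ∀ t,
        (∑ o, if grp o = t then g o (fun k => Sum.elim z y (sc o k)) else 0) = β t := by
  let d : ι → ℕ := fun t => Fintype.card {o // grp o = t}
  let e : ∀ t, Fin (d t) ≃ {o // grp o = t} := fun t => (Fintype.equivFin _).symm
  have hd : ∑ t, d t = Fintype.card O := by
    rw [← Fintype.card_sigma, Fintype.card_congr (Equiv.sigmaFiberEquiv grp)]
  let up : Fin n ⊕ Y → Fin n ⊕ (Y ⊕ Σ t, Fin (d t + 1)) := Sum.map id Sum.inl
  let hv : ∀ t, Fin (d t + 1) → Fin n ⊕ (Y ⊕ Σ t, Fin (d t + 1)) :=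
    fun t m => Sum.inr (Sum.inr ⟨t, m⟩)
  obtain ⟨pr, h1, h2⟩ := H48.csp_proj (N := N) (w := 5) (Y := Y ⊕ Σ t, Fin (d t + 1))
    (ι := (Σ t, Fin (d t)) ⊕ ι) hn
    (Sum.elim (fun p => ![hv p.1 p.2.castSucc, hv p.1 p.2.succ, up (sc (e p.1 p.2) 0),
        up (sc (e p.1 p.2) 1), up (sc (e p.1 p.2) 2)])
      fun t => ![hv t 0, hv t (Fin.last _), hv t 0, hv t 0, hv t 0])
    (Sum.elim (fun p σ => bz (σ 1) = bz (σ 0) + g (e p.1 p.2) ![σ 2, σ 3, σ 4])
      fun t σ => bz (σ 0) = 0 ∧ bz (σ 1) = β t) (by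
      simp only [Fintype.card_sum, Fintype.card_sigma, Fintype.card_fin, Finset.sum_add_distrib,
        hd, Finset.sum_const, Finset.card_univ, smul_eq_mul, mul_one]
      omega)
  refine ⟨pr, h1, fun z => (h2 z).trans ?_⟩
  have hsum : ∀ (y : Y → Bool) t,
      (∑ o, if grp o = t then g o (fun k => Sum.elim z y (sc o k)) else 0) =
        ∑ m, g (e t m) fun k => Sum.elim z y (sc (e t m) k) := by
    intro y t
    rw [← Finset.sum_filter, Finset.sum_subtype (p := fun o => grp o = t) _ (by simp),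
      ← Equiv.sum_comp (e t)]
  have hup : ∀ (y : (Y ⊕ Σ t, Fin (d t + 1)) → Bool) (o : O),
      ![Sum.elim z y (up (sc o 0)), Sum.elim z y (up (sc o 1)), Sum.elim z y (up (sc o 2))] =
        fun k => Sum.elim z (fun j => y (Sum.inl j)) (sc o k) := by
    intro y o
    have h : ∀ v, Sum.elim z y (up v) = Sum.elim z (fun j => y (Sum.inl j)) v := by
      rintro (v | v) <;> rfl
    funext k
    fin_cases k <;> simp [h]
  constructor
  · rintro ⟨y, hy⟩
    refine ⟨fun j => y (Sum.inl j), fun t => ?_⟩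
    rw [hsum, ← run_iff]
    refine ⟨fun m => y (Sum.inr ⟨t, m⟩), fun m => ?_, hy (Sum.inr t)⟩
    rw [← hup]
    exact hy (Sum.inl ⟨t, m⟩)
  · rintro ⟨y, hy⟩
    choose s hs using fun t => (run_iff _ _).2 ((hsum y t).symm.trans (hy t))
    refine ⟨Sum.elim y fun p => s p.1 p.2, ?_⟩
    rintro (⟨t, m⟩ | t)
    · have := (hs t).1 m
      rw [← show (fun j => Sum.elim y (fun p : Σ t, Fin (d t + 1) => s p.1 p.2) (Sum.inl j)) = y
        from rfl, ← hup] at this
      exact this
    · exact (hs t).2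

theorem gadget2 : Gadget2Stmt := by
  refine ⟨40000, fun n T N hn hN Enc ξ β ⟨φ, σ, Z, hZ⟩ => ?_⟩
  obtain ⟨pr, h1, h2⟩ := par_proj (N := N) (Y := Fin (2 * n))
    (ι := Fin n ⊕ Fin n ⊕ Fin (2 * n) ⊕ Unit)
    (O := (Fin (2 * n) × Fin 7) ⊕ Fin n ⊕ Fin (2 * n) ⊕ Fin T) hn
    (Sum.map φ (Sum.map id (Sum.map id fun _ => ())))
    (Sum.elim (fun e _ => Sum.inr e.1) (Sum.elim (fun i => ![Sum.inr (σ i), Sum.inl i, Sum.inl i])
      (Sum.elim (fun p _ => Sum.inr p)
        fun t => ![Sum.inr (ξ t).1.1, Sum.inr (ξ t).1.2.1, Sum.inr (ξ t).1.2.2])))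
    (Sum.elim (fun _ a => bz (a 0)) (Sum.elim (fun _ a => bz (a 0) - bz (a 1))
      (Sum.elim (fun p a => if p ∈ Z then bz (a 0) else 0)
        fun t a => (ξ t).2 * (bz (a 0) * bz (a 1) * bz (a 2)))))
    (Sum.elim (fun _ => 0) (Sum.elim (fun _ => 0) (Sum.elim (fun _ => 0) fun _ => β))) (by
      simp only [Fintype.card_sum, Fintype.card_prod, Fintype.card_fin, Fintype.card_unit]
      omega)
  refine ⟨pr, h1, fun x => (h2 x).trans ?_⟩
  have key : ∀ y : Fin (2 * n) → Bool, (∀ t : Fin n ⊕ Fin n ⊕ Fin (2 * n) ⊕ Unit,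
      (∑ o : (Fin (2 * n) × Fin 7) ⊕ Fin n ⊕ Fin (2 * n) ⊕ Fin T,
        if Sum.map φ (Sum.map id (Sum.map id fun _ => ())) o = t then
          Sum.elim (fun _ (a : Fin 3 → Bool) => bz (a 0)) (Sum.elim (fun _ a => bz (a 0) - bz (a 1))
            (Sum.elim (fun p a => if p ∈ Z then bz (a 0) else 0)
              fun t a => (ξ t).2 * (bz (a 0) * bz (a 1) * bz (a 2)))) o
            (fun k => Sum.elim x y (Sum.elim (fun e _ => Sum.inr e.1)
              (Sum.elim (fun i => ![Sum.inr (σ i), Sum.inl i, Sum.inl i])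
                (Sum.elim (fun p _ => Sum.inr p)
                  fun t => ![Sum.inr (ξ t).1.1, Sum.inr (ξ t).1.2.1, Sum.inr (ξ t).1.2.2])) o k))
        else 0) = Sum.elim (fun _ => 0) (Sum.elim (fun _ => 0) (Sum.elim (fun _ => 0) fun _ => β)) t) ↔
      tz y = Enc (tz x) ∧
        ∑ t, (ξ t).2 * (tz y (ξ t).1.1 * tz y (ξ t).1.2.1 * tz y (ξ t).1.2.2) = β := by
    intro y
    rw [hZ]
    simp only [Sum.forall, Fintype.sum_sum_type, Sum.map_inl, Sum.map_inr, Sum.elim_inl,
      Sum.elim_inr, Sum.inl.injEq, Sum.inr.injEq, reduceCtorEq, if_false, Finset.sum_const_zero,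
      add_zero, zero_add, id, Finset.sum_ite_eq', Finset.mem_univ, if_true, Matrix.cons_val_zero,
      Matrix.cons_val_one, Matrix.cons_val_two, Matrix.head_cons, Matrix.tail_cons, sub_eq_zero,
      Finset.sum_filter, forall_const, ite_eq_right_iff, and_assoc]
    rfl
  refine Iff.trans (exists_congr fun y => ?_) (b := ∃ y : Fin (2 * n) → Bool, tz y = Enc (tz x) ∧
    ∑ t, (ξ t).2 * (tz y (ξ t).1.1 * tz y (ξ t).1.2.1 * tz y (ξ t).1.2.2) = β) ?_
  · rw [← key y]
    refine forall_congr' fun t => iff_of_eq ?_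
    congr
    funext o
    congr
  · constructor
    · rintro ⟨y, hy, h⟩
      rw [hy] at h
      exact h
    · intro h
      have hy : tz (fun p => decide (Enc (tz x) p = 1)) = Enc (tz x) :=
        funext fun p => bz_decide _
      exact ⟨_, hy, by rw [hy]; exact h⟩

end Pool.Agent.MP_6b3410_lc.H50
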